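import Pool.Agent.R812.SemiLat

/-!
# Maximal chains do not decide `s`-completeness
-/

set_option autoImplicit false

namespace Pool.Agent.Results.MP_cb28d9_gt.MaxChains

open Pool.Agent.R812.SemiDefs

/-- There is a Hausdorff topological semilattice all of whose maximal chains are `s`-complete
(as topological semilattices), while it is not `s`-complete. -/
theorem result : ∃ (X : Type) (_ : TopologicalSpace X) (_ : CommSemigroup X),
    T2Space X ∧ ContinuousMul X ∧ (∀ x : X, x * x = x) ∧
    (∀ C : Set X, IsMaxChn C → ∃ L : Subsemigroup X, (L : Set X) = C ∧ SComplete L) ∧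
    ¬ SComplete X := by
  refine ⟨Pool.Agent.R812.SemiLat.X, inferInstance, inferInstance, inferInstance, inferInstance,
    Pool.Agent.R812.SemiLat.idem, fun C hC => ?_, Pool.Agent.R812.SemiLat.not_scomplete⟩
  refine ⟨⟨C, fun {a b} ha hb => ?_⟩, rfl, Pool.Agent.R812.SemiLat.maxchain_scomplete _ hC⟩
  rcases hC.1 a ha b hb with h | h
  · have h' : a * b = a := h
    rw [h']
    exact ha
  · have h' : b * a = b := h
    rw [mul_comm, h']
    exact hb

end Pool.Agent.Results.MP_cb28d9_gt.MaxChains
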